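import Mathlib

namespace Pool.Agent.Results.MP_c4d24c_al.OneSidedNotTwoSided

/-- The principal left ideal `H x`. -/
def leftIdeal {H : Type} [Monoid H] (x : H) : Set H := {z | ∃ h : H, z = h * x}

/-- The principal right ideal `x H`. -/
def rightIdeal {H : Type} [Monoid H] (x : H) : Set H := {z | ∃ h : H, z = x * h}

/-- The principal two-sided ideal `H x H`. -/
def twoSidedIdeal {H : Type} [Monoid H] (x : H) : Set H := {z | ∃ h k : H, z = h * x * k}

/-- Every ascending chain of principal left ideals is eventually constant. -/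
def ACCPL (H : Type) [Monoid H] : Prop :=
  ∀ x : ℕ → H, (∀ n, leftIdeal (x n) ⊆ leftIdeal (x (n + 1))) →
    ∃ N, ∀ n, N ≤ n → leftIdeal (x n) = leftIdeal (x N)

/-- Every ascending chain of principal right ideals is eventually constant. -/
def ACCPR (H : Type) [Monoid H] : Prop :=
  ∀ x : ℕ → H, (∀ n, rightIdeal (x n) ⊆ rightIdeal (x (n + 1))) →
    ∃ N, ∀ n, N ≤ n → rightIdeal (x n) = rightIdeal (x N)

/-- The band of triples `(l, r, m)` with `m ≤ min l r` and product
`(l, r, m) (l', r', m') = (l, r', min m m')`. -/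
@[ext] structure B : Type where
  l : ℕ
  r : ℕ
  m : ℕ
  hl : m ≤ l
  hr : m ≤ r

instance : Semigroup B where
  mul x y := ⟨x.l, y.r, min x.m y.m, le_trans (min_le_left _ _) x.hl,
    le_trans (min_le_right _ _) y.hr⟩
  mul_assoc x y z := by
    ext
    · rfl
    · rfl
    · exact min_assoc _ _ _

theorem mul_l (x y : B) : (x * y).l = x.l := rfl
theorem mul_r (x y : B) : (x * y).r = y.r := rfl
theorem mul_m (x y : B) : (x * y).m = min x.m y.m := rfl

abbrev H : Type := WithOne B

theorem self_left (x : H) : x ∈ leftIdeal x := ⟨1, by simp⟩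
theorem self_right (x : H) : x ∈ rightIdeal x := ⟨1, by simp⟩
theorem self_two (x : H) : x ∈ twoSidedIdeal x := ⟨1, 1, by simp⟩

theorem left_mono {x y : H} (h : x ∈ leftIdeal y) : leftIdeal x ⊆ leftIdeal y := by
  rintro z ⟨a, rfl⟩
  obtain ⟨b, rfl⟩ := h
  exact ⟨a * b, by rw [mul_assoc]⟩

theorem right_mono {x y : H} (h : x ∈ rightIdeal y) : rightIdeal x ⊆ rightIdeal y := by
  rintro z ⟨a, rfl⟩
  obtain ⟨b, rfl⟩ := h
  exact ⟨b * a, by rw [mul_assoc]⟩

theorem two_mono {x y : H} (h : x ∈ twoSidedIdeal y) : twoSidedIdeal x ⊆ twoSidedIdeal y := by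
  rintro z ⟨a, b, rfl⟩
  obtain ⟨c, d, rfl⟩ := h
  exact ⟨a * c, d * b, by simp only [mul_assoc]⟩

theorem mem_left_iff (s t : B) : (s : H) ∈ leftIdeal (t : H) ↔ s.r = t.r ∧ s.m ≤ t.m := by
  constructor
  · rintro ⟨h, hh⟩
    revert hh
    refine WithOne.cases_on h ?_ ?_
    · intro hh
      rw [one_mul] at hh
      rw [WithOne.coe_inj.mp hh]
      exact ⟨rfl, le_refl _⟩
    · intro h hh
      rw [← WithOne.coe_mul] at hh
      have := WithOne.coe_inj.mp hh
      rw [this]
      exact ⟨rfl, min_le_right _ _⟩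
  · rintro ⟨h1, h2⟩
    refine ⟨((⟨s.l, s.l, s.m, s.hl, s.hl⟩ : B) : H), ?_⟩
    rw [← WithOne.coe_mul]
    congr 1
    ext
    · rfl
    · exact h1
    · exact (min_eq_left h2).symm

theorem mem_right_iff (s t : B) : (s : H) ∈ rightIdeal (t : H) ↔ s.l = t.l ∧ s.m ≤ t.m := by
  constructor
  · rintro ⟨h, hh⟩
    revert hh
    refine WithOne.cases_on h ?_ ?_
    · intro hh
      rw [mul_one] at hh
      rw [WithOne.coe_inj.mp hh]
      exact ⟨rfl, le_refl _⟩
    · intro h hh
      rw [← WithOne.coe_mul] at hh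
      have := WithOne.coe_inj.mp hh
      rw [this]
      exact ⟨rfl, min_le_left _ _⟩
  · rintro ⟨h1, h2⟩
    refine ⟨((⟨s.r, s.r, s.m, s.hr, s.hr⟩ : B) : H), ?_⟩
    rw [← WithOne.coe_mul]
    congr 1
    ext
    · exact h1
    · rfl
    · exact (min_eq_right h2).symm

theorem coe_or_one (x : H) : x = 1 ∨ ∃ s : B, x = (s : H) := by
  refine WithOne.cases_on x (Or.inl rfl) (fun s => Or.inr ⟨s, rfl⟩)

/-- A bounded non-decreasing sequence of natural numbers is eventually constant. -/
theorem eventually_const (m : ℕ → ℕ) (c : ℕ) (hm : Monotone m) (hc : ∀ n, m n ≤ c) :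
    ∃ N, ∀ n, N ≤ n → m n = m N := by
  obtain ⟨y, ⟨N, rfl⟩, hN⟩ := Set.Finite.exists_maximal
    ((Set.finite_Iic c).subset (by rintro _ ⟨n, rfl⟩; exact hc n)) (Set.range_nonempty m)
  refine ⟨N, fun n hn => le_antisymm (hN ⟨n, rfl⟩ (hm hn)) (hm hn)⟩

theorem accpl : ACCPL H := by
  intro x hx
  have hmono : ∀ n k, leftIdeal (x n) ⊆ leftIdeal (x (n + k)) := by
    intro n k
    induction k with
    | zero => exact subset_refl _
    | succ k ih => exact ih.trans (hx _)
  by_cases h1 : ∃ N, x N = 1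
  · obtain ⟨N, hN⟩ := h1
    refine ⟨N, fun n hn => ?_⟩
    obtain ⟨k, rfl⟩ := Nat.exists_eq_add_of_le hn
    refine Set.Subset.antisymm ?_ (hmono N k)
    rw [hN]
    intro z _
    exact ⟨z, by simp⟩
  · push Not at h1
    choose s hs using fun n => (coe_or_one (x n)).resolve_left (h1 n)
    have hstep : ∀ n, (s n).r = (s (n + 1)).r ∧ (s n).m ≤ (s (n + 1)).m := by
      intro n
      rw [← mem_left_iff, ← hs, ← hs]
      exact hx n (self_left _)
    have hr : ∀ n, (s n).r = (s 0).r := by
      intro n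
      induction n with
      | zero => rfl
      | succ n ih => rw [← (hstep n).1, ih]
    obtain ⟨N, hN⟩ := eventually_const (fun n => (s n).m) (s 0).r
      (monotone_nat_of_le_succ (fun n => (hstep n).2)) (fun n => by rw [← hr n]; exact (s n).hr)
    refine ⟨N, fun n hn => ?_⟩
    rw [hs, hs]
    refine Set.Subset.antisymm (left_mono ?_) (left_mono ?_)
    · rw [mem_left_iff]
      exact ⟨by rw [hr n, hr N], (hN n hn).le⟩
    · rw [mem_left_iff]
      exact ⟨by rw [hr n, hr N], (hN n hn).ge⟩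

theorem accpr : ACCPR H := by
  intro x hx
  have hmono : ∀ n k, rightIdeal (x n) ⊆ rightIdeal (x (n + k)) := by
    intro n k
    induction k with
    | zero => exact subset_refl _
    | succ k ih => exact ih.trans (hx _)
  by_cases h1 : ∃ N, x N = 1
  · obtain ⟨N, hN⟩ := h1
    refine ⟨N, fun n hn => ?_⟩
    obtain ⟨k, rfl⟩ := Nat.exists_eq_add_of_le hn
    refine Set.Subset.antisymm ?_ (hmono N k)
    rw [hN]
    intro z _
    exact ⟨z, by simp⟩
  · push Not at h1
    choose s hs using fun n => (coe_or_one (x n)).resolve_left (h1 n)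
    have hstep : ∀ n, (s n).l = (s (n + 1)).l ∧ (s n).m ≤ (s (n + 1)).m := by
      intro n
      rw [← mem_right_iff, ← hs, ← hs]
      exact hx n (self_right _)
    have hr : ∀ n, (s n).l = (s 0).l := by
      intro n
      induction n with
      | zero => rfl
      | succ n ih => rw [← (hstep n).1, ih]
    obtain ⟨N, hN⟩ := eventually_const (fun n => (s n).m) (s 0).l
      (monotone_nat_of_le_succ (fun n => (hstep n).2)) (fun n => by rw [← hr n]; exact (s n).hl)
    refine ⟨N, fun n hn => ?_⟩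
    rw [hs, hs]
    refine Set.Subset.antisymm (right_mono ?_) (right_mono ?_)
    · rw [mem_right_iff]
      exact ⟨by rw [hr n, hr N], (hN n hn).le⟩
    · rw [mem_right_iff]
      exact ⟨by rw [hr n, hr N], (hN n hn).ge⟩

theorem m_le_of_mem_two (s t : B) (h : (s : H) ∈ twoSidedIdeal (t : H)) : s.m ≤ t.m := by
  obtain ⟨a, b, hab⟩ := h
  revert hab
  refine WithOne.cases_on a ?_ ?_
  · refine WithOne.cases_on b ?_ ?_
    · intro hh
      rw [one_mul, mul_one] at hh
      rw [WithOne.coe_inj.mp hh]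
    · intro b hh
      rw [one_mul, ← WithOne.coe_mul] at hh
      rw [WithOne.coe_inj.mp hh]
      exact min_le_left _ _
  · intro a
    refine WithOne.cases_on b ?_ ?_
    · intro hh
      rw [mul_one, ← WithOne.coe_mul] at hh
      rw [WithOne.coe_inj.mp hh]
      exact min_le_right _ _
    · intro b hh
      rw [← WithOne.coe_mul, ← WithOne.coe_mul] at hh
      rw [WithOne.coe_inj.mp hh]
      exact le_trans (min_le_left _ _) (min_le_right _ _)

/-- The ascending sequence. -/
def seq (n : ℕ) : B := ⟨n, n, n, le_refl _, le_refl _⟩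

theorem result : ∃ (H : Type) (_ : Monoid H), (∀ a : H, a * a = a) ∧ ACCPL H ∧ ACCPR H ∧
    ∃ x : ℕ → H, ∀ n, twoSidedIdeal (x n) ⊂ twoSidedIdeal (x (n + 1)) := by
  refine ⟨H, inferInstance, ?_, accpl, accpr, fun n => (seq n : H), fun n => ⟨two_mono ?_, ?_⟩⟩
  · intro a
    rcases coe_or_one a with rfl | ⟨s, rfl⟩
    · simp
    · have hs : s * s = s := by
        ext
        · rfl
        · rfl
        · exact min_self _
      rw [← WithOne.coe_mul, hs]
  · refine ⟨(seq n : H), (seq n : H), ?_⟩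
    have hs : seq n = seq n * seq (n + 1) * seq n := by
      ext
      · rfl
      · rfl
      · show n = min (min n (n + 1)) n
        omega
    rw [← WithOne.coe_mul, ← WithOne.coe_mul, ← hs]
  · intro h
    have h1 := m_le_of_mem_two _ _ (h (self_two (seq (n + 1) : H)))
    have h2 : n + 1 ≤ n := h1
    omega

end Pool.Agent.Results.MP_c4d24c_al.OneSidedNotTwoSided
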